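import Pool.Agent.MVS.Stmts

/-!
# MVS: row BR1 (a metric on the four-sphere gives a cylinder metric)
-/

noncomputable section

open scoped ContDiff Topology RealInnerProductSpace
set_option maxSynthPendingDepth 3
open Set

namespace Pool.Agent.MVS.H94

open Pool.Agent.RF Pool.Agent.MVS Pool.Agent.SecondKind Pool.Agent.MinVolSphere

/-! ### linear algebra on the tangent spaces -/

section Lin

variable {g : Form 4} {x : Fin 5 → ℝ}

theorem br1_tan_smul {u : Fin 5 → ℝ} (hu : Tangent x u) (c : ℝ) : Tangent x (c • u) := by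
  refine ⟨hu.1, ?_⟩
  have h : ∑ i, x i * (c • u) i = c * ∑ i, x i * u i := by
    rw [Finset.mul_sum]
    refine Finset.sum_congr rfl fun j _ => ?_
    simp only [Pi.smul_apply, smul_eq_mul]
    ring
  rw [h, hu.2, mul_zero]

theorem br1_tan_sum (hx : OnSphere x) {ι : Type*} (s : Finset ι) (c : ι → ℝ)
    (u : ι → Fin 5 → ℝ) (hu : ∀ i, Tangent x (u i)) : Tangent x (∑ i ∈ s, c i • u i) := by
  refine ⟨hx, ?_⟩
  classical
  induction s using Finset.induction_on with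
  | empty => simp
  | insert a s ha ih =>
    rw [Finset.sum_insert ha]
    have h1 := (hu a).2
    have h2 : ∑ i, x i * (c a • u a + ∑ i ∈ s, c i • u i) i =
        c a * ∑ i, x i * u a i + ∑ i, x i * (∑ i ∈ s, c i • u i) i := by
      rw [Finset.mul_sum, ← Finset.sum_add_distrib]
      refine Finset.sum_congr rfl fun j _ => ?_
      simp only [Pi.add_apply, Pi.smul_apply, smul_eq_mul]
      ring
    rw [h2, h1, ih]
    ring

theorem br1_g_sum (hg : IsMetric g) (hx : OnSphere x) {ι : Type*} (s : Finset ι) (c : ι → ℝ)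
    (u : ι → Fin 5 → ℝ) (hu : ∀ i, Tangent x (u i)) {w : Fin 5 → ℝ} (hw : Tangent x w) :
    g x (∑ i ∈ s, c i • u i) w = ∑ i ∈ s, c i * g x (u i) w := by
  classical
  induction s using Finset.induction_on with
  | empty =>
    have h := hg.smul x 0 w w hw hw
    simpa using h
  | insert a s ha ih =>
    rw [Finset.sum_insert ha, Finset.sum_insert ha,
      hg.add x _ _ w (br1_tan_smul (hu a) _) (br1_tan_sum hx s c u hu) hw,
      hg.smul x _ _ _ (hu a) hw, ih]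

theorem br1_g_sum2 (hg : IsMetric g) (hx : OnSphere x) {ι κ : Type*} (s : Finset ι) (c : ι → ℝ)
    (u : ι → Fin 5 → ℝ) (hu : ∀ i, Tangent x (u i)) (t : Finset κ) (d : κ → ℝ)
    (v : κ → Fin 5 → ℝ) (hv : ∀ j, Tangent x (v j)) :
    g x (∑ i ∈ s, c i • u i) (∑ j ∈ t, d j • v j) =
      ∑ i ∈ s, ∑ j ∈ t, c i * d j * g x (u i) (v j) := by
  rw [br1_g_sum hg hx s c u hu (br1_tan_sum hx t d v hv)]
  refine Finset.sum_congr rfl fun i _ => ?_
  rw [hg.symm x _ _ (hu i) (br1_tan_sum hx t d v hv), br1_g_sum hg hx t d v hv (hu i),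
    Finset.mul_sum]
  refine Finset.sum_congr rfl fun j _ => ?_
  rw [hg.symm x _ _ (hv j) (hu i)]
  ring

theorem br1_tan_tang (hx : OnSphere x) (i : Fin 5) : Tangent x (tang x i) := by
  refine ⟨hx, ?_⟩
  have h : ∑ j, x j * tang x i j = x i - x i * ∑ j, x j ^ 2 := by
    have h1 : ∀ j, x j * tang x i j = (if i = j then x j else 0) - x i * x j ^ 2 := by
      intro j
      unfold tang
      split_ifs <;> ring
    rw [Finset.sum_congr rfl fun j _ => h1 j, Finset.sum_sub_distrib, ← Finset.mul_sum]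
    simp
  rw [h, hx]
  ring

theorem br1_pr (v : Fin 5 → ℝ) : ∑ i, v i • tang x i = v - (∑ k, x k * v k) • x := by
  funext j
  rw [Finset.sum_apply]
  have h1 : ∀ i, (v i • tang x i) j = (if i = j then v i else 0) - x i * v i * x j := by
    intro i
    simp only [Pi.smul_apply, smul_eq_mul, tang]
    split_ifs <;> ring
  rw [Finset.sum_congr rfl fun i _ => h1 i, Finset.sum_sub_distrib, ← Finset.sum_mul]
  simp

end Lin

/-! ### smoothness -/

section Smooth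

variable {g : Form 4} {U : Set (Fin 4 → ℝ)} {ψ : (Fin 4 → ℝ) → Fin 5 → ℝ}

theorem br1_orth (hψ : IsParam U ψ) {y : Fin 4 → ℝ} (hy : y ∈ U) (u : Fin 4 → ℝ) :
    ∑ i, ψ y i * fderiv ℝ ψ y u i = 0 := by
  have hd : DifferentiableAt ℝ ψ y :=
    (hψ.smooth.contDiffAt (hψ.isOpen.mem_nhds hy)).differentiableAt (by simp)
  have h1 : HasFDerivAt (fun z => ∑ i, ψ z i ^ 2)
      (∑ i, (2 * ψ y i) • ((ContinuousLinearMap.proj i : (Fin 5 → ℝ) →L[ℝ] ℝ).comp
        (fderiv ℝ ψ y))) y := by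
    refine HasFDerivAt.fun_sum fun i _ => ?_
    have h2 : HasFDerivAt (fun z => ψ z i)
        ((ContinuousLinearMap.proj i : (Fin 5 → ℝ) →L[ℝ] ℝ).comp (fderiv ℝ ψ y)) y :=
      ((ContinuousLinearMap.proj i : (Fin 5 → ℝ) →L[ℝ] ℝ).hasFDerivAt).comp y hd.hasFDerivAt
    have h3 := h2.pow 2
    simpa using h3
  have h4 : HasFDerivAt (fun z => ∑ i, ψ z i ^ 2) (0 : (Fin 4 → ℝ) →L[ℝ] ℝ) y := by
    refine (hasFDerivAt_const (1 : ℝ) y).congr_of_eventuallyEq ?_
    filter_upwards [hψ.isOpen.mem_nhds hy] with z hz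
    exact hψ.sphere z hz
  have h5 := h1.unique h4
  have h6 := congrArg (fun L : (Fin 4 → ℝ) →L[ℝ] ℝ => L u) h5
  simp only [ContinuousLinearMap.sum_apply, ContinuousLinearMap.smul_apply, smul_eq_mul,
    ContinuousLinearMap.comp_apply, ContinuousLinearMap.proj_apply,
    ContinuousLinearMap.zero_apply] at h6
  have h7 : ∑ i, 2 * ψ y i * fderiv ℝ ψ y u i = 2 * ∑ i, ψ y i * fderiv ℝ ψ y u i := by
    rw [Finset.mul_sum]
    refine Finset.sum_congr rfl fun i _ => ?_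
    ring
  rw [h7] at h6
  linarith

/-- `(u, s) ↦ Dψ(y) u + s ψ(y)` -/
def br1M (ψ : (Fin 4 → ℝ) → Fin 5 → ℝ) (y : Fin 4 → ℝ) :
    ((Fin 4 → ℝ) × ℝ) →L[ℝ] (Fin 5 → ℝ) :=
  (fderiv ℝ ψ y).comp (ContinuousLinearMap.fst ℝ (Fin 4 → ℝ) ℝ)
    + (ContinuousLinearMap.snd ℝ (Fin 4 → ℝ) ℝ).smulRight (ψ y)

theorem br1M_apply (y : Fin 4 → ℝ) (p : (Fin 4 → ℝ) × ℝ) :
    br1M ψ y p = fderiv ℝ ψ y p.1 + p.2 • ψ y := rfl

theorem br1M_smooth (hψ : IsParam U ψ) : ContDiffOn ℝ ∞ (br1M ψ) U := by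
  have h1 : ContDiffOn ℝ ∞ (fderiv ℝ ψ) U :=
    hψ.smooth.fderiv_of_isOpen hψ.isOpen (by simp)
  unfold br1M
  exact (h1.clm_comp contDiffOn_const).add (contDiffOn_const.smulRight hψ.smooth)

theorem br1M_equiv
    (hs : ∀ y ∈ U, ∀ v : Fin 5 → ℝ, ∑ i, ψ y i * v i = 0 → ∃ u, fderiv ℝ ψ y u = v)
    (hψ : IsParam U ψ) {y : Fin 4 → ℝ} (hy : y ∈ U) :
    ∃ e : ((Fin 4 → ℝ) × ℝ) ≃L[ℝ] (Fin 5 → ℝ),
      (e : ((Fin 4 → ℝ) × ℝ) →L[ℝ] (Fin 5 → ℝ)) = br1M ψ y := by
  have hsurj : Function.Surjective (br1M ψ y).toLinearMap := by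
    intro v
    obtain ⟨u, hu⟩ := hs y hy (v - (∑ k, ψ y k * v k) • ψ y) (by
      have hsp : ∑ i, ψ y i ^ 2 = 1 := hψ.sphere y hy
      have h1 : ∀ i, ψ y i * (v - (∑ k, ψ y k * v k) • ψ y) i =
          ψ y i * v i - (∑ k, ψ y k * v k) * ψ y i ^ 2 := by
        intro i
        simp only [Pi.sub_apply, Pi.smul_apply, smul_eq_mul]
        ring
      rw [Finset.sum_congr rfl fun i _ => h1 i, Finset.sum_sub_distrib, ← Finset.mul_sum, hsp]
      ring)
    refine ⟨(u, ∑ k, ψ y k * v k), ?_⟩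
    change fderiv ℝ ψ y u + (∑ k, ψ y k * v k) • ψ y = v
    rw [hu]
    abel
  have hfin : Module.finrank ℝ ((Fin 4 → ℝ) × ℝ) = Module.finrank ℝ (Fin 5 → ℝ) := by
    simp
  have hinj : Function.Injective (br1M ψ y).toLinearMap :=
    (LinearMap.injective_iff_surjective_of_finrank_eq_finrank hfin).2 hsurj
  refine ⟨(LinearEquiv.ofBijective (br1M ψ y).toLinearMap ⟨hinj, hsurj⟩).toContinuousLinearEquiv,
    ?_⟩
  exact ContinuousLinearMap.ext fun p => rfl

theorem br1N_smooth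
    (hs : ∀ y ∈ U, ∀ v : Fin 5 → ℝ, ∑ i, ψ y i * v i = 0 → ∃ u, fderiv ℝ ψ y u = v)
    (hψ : IsParam U ψ) : ContDiffOn ℝ ∞ (fun y => (br1M ψ y).inverse) U := by
  intro y hy
  obtain ⟨e, he⟩ := br1M_equiv hs hψ hy
  have h1 : ContDiffAt ℝ ∞ ContinuousLinearMap.inverse (br1M ψ y) := by
    rw [← he]
    exact contDiffAt_map_inverse e
  have h2 : ContDiffAt ℝ ∞ (br1M ψ) y :=
    (br1M_smooth hψ).contDiffAt (hψ.isOpen.mem_nhds hy)
  exact (h1.comp y h2).contDiffWithinAt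

theorem br1N_spec
    (hs : ∀ y ∈ U, ∀ v : Fin 5 → ℝ, ∑ i, ψ y i * v i = 0 → ∃ u, fderiv ℝ ψ y u = v)
    (hψ : IsParam U ψ) {y : Fin 4 → ℝ} (hy : y ∈ U) (v : Fin 5 → ℝ) :
    br1M ψ y ((br1M ψ y).inverse v) = v := by
  obtain ⟨e, he⟩ := br1M_equiv hs hψ hy
  rw [← he, ContinuousLinearMap.inverse_equiv]
  simp

theorem br1_tang_eq
    (hs : ∀ y ∈ U, ∀ v : Fin 5 → ℝ, ∑ i, ψ y i * v i = 0 → ∃ u, fderiv ℝ ψ y u = v)
    (hψ : IsParam U ψ) {y : Fin 4 → ℝ} (hy : y ∈ U) (i : Fin 5) :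
    tang (ψ y) i = ∑ k : Fin 4, ((br1M ψ y).inverse (Pi.single i 1)).1 k •
      fderiv ℝ ψ y (Pi.single k 1) := by
  have h1 := br1N_spec hs hψ hy (Pi.single i 1)
  set p := (br1M ψ y).inverse (Pi.single i 1) with hp
  rw [br1M_apply] at h1
  have hsp : ∑ j, ψ y j ^ 2 = 1 := hψ.sphere y hy
  have h2 : p.2 = ψ y i := by
    have h3 := br1_orth hψ hy p.1
    have h4 : ∑ j, ψ y j * (fderiv ℝ ψ y p.1 + p.2 • ψ y) j = p.2 := by
      have h5 : ∀ j, ψ y j * (fderiv ℝ ψ y p.1 + p.2 • ψ y) j =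
          ψ y j * fderiv ℝ ψ y p.1 j + p.2 * ψ y j ^ 2 := by
        intro j
        simp only [Pi.add_apply, Pi.smul_apply, smul_eq_mul]
        ring
      rw [Finset.sum_congr rfl fun j _ => h5 j, Finset.sum_add_distrib, ← Finset.mul_sum, hsp, h3]
      ring
    rw [h1] at h4
    rw [← h4]
    simp [Pi.single_apply]
  have h6 : fderiv ℝ ψ y p.1 = tang (ψ y) i := by
    have h7 : fderiv ℝ ψ y p.1 = Pi.single i 1 - p.2 • ψ y := by
      rw [← h1]
      abel
    rw [h7, h2]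
    funext j
    simp only [Pi.sub_apply, Pi.smul_apply, smul_eq_mul, tang, Pi.single_apply, eq_comm]
  rw [← h6]
  have h8 : p.1 = ∑ k, p.1 k • (Pi.single k 1 : Fin 4 → ℝ) := by
    funext j
    simp [Finset.sum_apply, Pi.single_apply]
  conv_lhs => rw [h8]
  rw [map_sum]
  refine Finset.sum_congr rfl fun k _ => ?_
  rw [map_smul]

theorem br1_smooth_tang (hg : IsMetric g)
    (hs : ∀ y ∈ U, ∀ v : Fin 5 → ℝ, ∑ i, ψ y i * v i = 0 → ∃ u, fderiv ℝ ψ y u = v)
    (hψ : IsParam U ψ) (i j : Fin 5) :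
    ContDiffOn ℝ ∞ (fun y => g (ψ y) (tang (ψ y) i) (tang (ψ y) j)) U := by
  have h1 : ∀ (i : Fin 5) (k : Fin 4), ContDiffOn ℝ ∞
      (fun y => ((br1M ψ y).inverse (Pi.single i 1)).1 k) U := by
    intro i k
    have h2 : ContDiffOn ℝ ∞ (fun y => (br1M ψ y).inverse (Pi.single i 1)) U :=
      (br1N_smooth hs hψ).clm_apply contDiffOn_const
    have h3 : ContDiffOn ℝ ∞ (fun y => ((br1M ψ y).inverse (Pi.single i 1)).1) U :=
      contDiff_fst.comp_contDiffOn h2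
    exact (contDiffOn_pi.1 h3) k
  have h4 : ContDiffOn ℝ ∞ (fun y => ∑ k : Fin 4, ∑ l : Fin 4,
      ((br1M ψ y).inverse (Pi.single i 1)).1 k * ((br1M ψ y).inverse (Pi.single j 1)).1 l *
        comp g ψ y k l) U := by
    refine ContDiffOn.sum fun k _ => ContDiffOn.sum fun l _ => ?_
    exact ((h1 i k).mul (h1 j l)).mul (hg.smooth U ψ hψ k l)
  refine h4.congr fun y hy => ?_
  have hsp := hψ.sphere y hy
  rw [br1_tang_eq hs hψ hy i, br1_tang_eq hs hψ hy j]
  exact br1_g_sum2 hg hsp _ _ _ (fun k => ⟨hsp, br1_orth hψ hy _⟩) _ _ _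
    (fun k => ⟨hsp, br1_orth hψ hy _⟩)

end Smooth

/-! ### the cylinder metric -/

section Cyl

/-- the normalised vector -/
def br1n (x : Fin 5 → ℝ) : Fin 5 → ℝ := (Real.sqrt (∑ i, x i ^ 2))⁻¹ • x

/-- the coefficients of the cylinder metric -/
def br1c (g : Form 4) (x : Fin 5 → ℝ) (i j : Fin 5) : ℝ :=
  (∑ i, x i ^ 2)⁻¹ * (g (br1n x) (tang (br1n x) i) (tang (br1n x) j) + br1n x i * br1n x j)

/-- the cylinder metric -/
def br1G (g : Form 4) (x : E5) : Bil E5 :=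
  ∑ i : Fin 5, ∑ j : Fin 5, br1c g (fun k => x k) i j •
    ((EuclideanSpace.proj i : E5 →L[ℝ] ℝ).smulRight (EuclideanSpace.proj j : E5 →L[ℝ] ℝ))

theorem br1G_apply (g : Form 4) (x v w : E5) :
    br1G g x v w = ∑ i : Fin 5, ∑ j : Fin 5, br1c g (fun k => x k) i j * (v i * w j) := by
  simp [br1G]

theorem br1_sq_pos {x : Fin 5 → ℝ} (hx : x ≠ 0) : 0 < ∑ i, x i ^ 2 := by
  obtain ⟨i, hi⟩ := Function.ne_iff.1 hx
  have h1 : 0 < x i ^ 2 := by
    have : x i ≠ 0 := hi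
    positivity
  exact lt_of_lt_of_le h1
    (Finset.single_le_sum (f := fun i => x i ^ 2) (fun j _ => sq_nonneg _) (Finset.mem_univ i))

theorem br1n_sphere {x : Fin 5 → ℝ} (hx : x ≠ 0) : OnSphere (br1n x) := by
  have h := br1_sq_pos hx
  unfold OnSphere br1n
  have h1 : ∀ i, ((Real.sqrt (∑ i, x i ^ 2))⁻¹ • x) i ^ 2 = (∑ i, x i ^ 2)⁻¹ * x i ^ 2 := by
    intro i
    rw [Pi.smul_apply, smul_eq_mul, mul_pow, inv_pow, Real.sq_sqrt h.le]
  rw [Finset.sum_congr rfl fun i _ => h1 i, ← Finset.mul_sum, inv_mul_cancel₀ h.ne']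

theorem br1n_smul {c : ℝ} (hc : 0 < c) (x : Fin 5 → ℝ) : br1n (c • x) = br1n x := by
  unfold br1n
  have h1 : ∑ i, (c • x) i ^ 2 = c ^ 2 * ∑ i, x i ^ 2 := by
    rw [Finset.mul_sum]
    refine Finset.sum_congr rfl fun i _ => ?_
    rw [Pi.smul_apply, smul_eq_mul, mul_pow]
  rw [h1, Real.sqrt_mul (sq_nonneg c), Real.sqrt_sq hc.le, smul_smul, mul_inv]
  congr 1
  field_simp

/-- the formula for the metric -/
theorem br1G_eq {g : Form 4} (hg : IsMetric g) {x : E5} (hx : x ≠ 0) (v w : E5) :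
    br1G g x v w = (∑ i, x i ^ 2)⁻¹ *
      (g (br1n fun k => x k)
        ((fun k => v k) - (∑ k, (br1n fun k => x k) k * v k) • (br1n fun k => x k))
        ((fun k => w k) - (∑ k, (br1n fun k => x k) k * w k) • (br1n fun k => x k))
        + (∑ k, (br1n fun k => x k) k * v k) * (∑ k, (br1n fun k => x k) k * w k)) := by
  have hx' : (fun k => x k : Fin 5 → ℝ) ≠ 0 := by
    intro h
    apply hx
    ext k
    exact congrFun h k
  have hsp := br1n_sphere hx'
  rw [← br1_pr (fun k => v k), ← br1_pr (fun k => w k),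
    br1_g_sum2 hg hsp _ _ _ (br1_tan_tang hsp) _ _ _ (br1_tan_tang hsp), br1G_apply,
    Finset.sum_mul_sum, ← Finset.sum_add_distrib, Finset.mul_sum]
  refine Finset.sum_congr rfl fun i _ => ?_
  rw [← Finset.sum_add_distrib, Finset.mul_sum]
  refine Finset.sum_congr rfl fun j _ => ?_
  unfold br1c
  ring

theorem br1c_smooth (hPar : ParStatement) {g : Form 4} (hg : IsMetric g) (i j : Fin 5) :
    ContDiffOn ℝ ∞ (fun x : Fin 5 → ℝ => br1c g x i j) {x | x ≠ 0} := by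
  intro x₀ hx₀
  have hx₀' : x₀ ≠ 0 := hx₀
  have hpos := br1_sq_pos hx₀'
  have hr : 0 < Real.sqrt (∑ i, x₀ i ^ 2) := Real.sqrt_pos.2 hpos
  set r := Real.sqrt (∑ i, x₀ i ^ 2) with hrdef
  obtain ⟨U, ψ, y₀, O, η, hψ, -, -, hO, hxO, hη, hOη, hs⟩ := hPar (br1n x₀) (br1n_sphere hx₀')
  have hsc : ContDiff ℝ ∞ (fun x : Fin 5 → ℝ => r⁻¹ • x) := contDiff_const_smul _
  have hO' : IsOpen ((fun x : Fin 5 → ℝ => r⁻¹ • x) ⁻¹' O) := hO.preimage hsc.continuous
  have hx₀O : x₀ ∈ (fun x : Fin 5 → ℝ => r⁻¹ • x) ⁻¹' O := hxO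
  have hη' : ContDiffOn ℝ ∞ (fun x : Fin 5 → ℝ => η (r⁻¹ • x))
      ((fun x : Fin 5 → ℝ => r⁻¹ • x) ⁻¹' O) := hη.comp hsc.contDiffOn fun _ h => h
  have hmap : MapsTo (fun x : Fin 5 → ℝ => η (r⁻¹ • x))
      ((fun x : Fin 5 → ℝ => r⁻¹ • x) ⁻¹' O) U := fun x hx => (hOη _ hx).1
  have hn : ∀ x ∈ (fun x : Fin 5 → ℝ => r⁻¹ • x) ⁻¹' O, br1n x = ψ (η (r⁻¹ • x)) := by
    intro x hx
    rw [(hOη _ hx).2]
    exact (br1n_smul (inv_pos.2 hr) x).symm
  have h1 : ContDiffOn ℝ ∞ (fun x : Fin 5 → ℝ => g (ψ (η (r⁻¹ • x)))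
      (tang (ψ (η (r⁻¹ • x))) i) (tang (ψ (η (r⁻¹ • x))) j))
      ((fun x : Fin 5 → ℝ => r⁻¹ • x) ⁻¹' O) :=
    (br1_smooth_tang hg hs hψ i j).comp hη' hmap
  have h2 : ∀ k, ContDiffOn ℝ ∞ (fun x : Fin 5 → ℝ => ψ (η (r⁻¹ • x)) k)
      ((fun x : Fin 5 → ℝ => r⁻¹ • x) ⁻¹' O) := fun k =>
    (contDiffOn_pi.1 hψ.smooth k).comp hη' hmap
  have h3 : ContDiff ℝ ∞ (fun x : Fin 5 → ℝ => ∑ i, x i ^ 2) :=
    ContDiff.sum fun i _ => (contDiff_apply ℝ ℝ i).pow 2
  have h4 : ContDiffAt ℝ ∞ (fun x : Fin 5 → ℝ => (∑ i, x i ^ 2)⁻¹) x₀ :=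
    h3.contDiffAt.inv hpos.ne'
  have h5 : ContDiffAt ℝ ∞ (fun x : Fin 5 → ℝ => (∑ i, x i ^ 2)⁻¹ *
      (g (ψ (η (r⁻¹ • x))) (tang (ψ (η (r⁻¹ • x))) i) (tang (ψ (η (r⁻¹ • x))) j)
        + ψ (η (r⁻¹ • x)) i * ψ (η (r⁻¹ • x)) j)) x₀ :=
    h4.mul ((h1.add ((h2 i).mul (h2 j))).contDiffAt (hO'.mem_nhds hx₀O))
  refine (h5.congr_of_eventuallyEq ?_).contDiffWithinAt
  filter_upwards [hO'.mem_nhds hx₀O] with x hx
  unfold br1c
  rw [hn x hx]

theorem br1_ne {x : E5} (hx : x ≠ 0) : (fun k => x k : Fin 5 → ℝ) ≠ 0 := by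
  intro h
  apply hx
  ext k
  exact congrFun h k

theorem br1_cyl (hPar : ParStatement) {g : Form 4} (hg : IsMetric g) : IsCyl (br1G g) where
  metric :=
    { isOpen := isOpen_ne
      smooth := by
        change ContDiffOn ℝ ∞ (fun x : E5 => ∑ i : Fin 5, ∑ j : Fin 5,
          br1c g (fun k => x k) i j • ((EuclideanSpace.proj i : E5 →L[ℝ] ℝ).smulRight
            (EuclideanSpace.proj j : E5 →L[ℝ] ℝ))) (Om (Fin 5))
        refine ContDiffOn.sum fun i _ => ?_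
        refine ContDiffOn.sum fun j _ => ?_
        have h1 : ContDiff ℝ ∞ (fun x : E5 => (fun k => x k : Fin 5 → ℝ)) :=
          ((EuclideanSpace.equiv (Fin 5) ℝ : E5 ≃L[ℝ] (Fin 5 → ℝ)) :
            E5 →L[ℝ] (Fin 5 → ℝ)).contDiff
        have h2 : ContDiffOn ℝ ∞ (fun x : E5 => br1c g (fun k => x k) i j) (Om (Fin 5)) :=
          (br1c_smooth hPar hg i j).comp h1.contDiffOn fun x hx => br1_ne hx
        exact h2.smul contDiffOn_const
      symm := by
        intro x hx v w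
        rw [br1G_apply, br1G_apply, Finset.sum_comm]
        refine Finset.sum_congr rfl fun i _ => Finset.sum_congr rfl fun j _ => ?_
        have hsp := br1n_sphere (br1_ne hx)
        unfold br1c
        rw [hg.symm _ _ _ (br1_tan_tang hsp j) (br1_tan_tang hsp i)]
        ring
      pos := by
        intro x hx v hv
        have hx' := br1_ne hx
        have hsp := br1n_sphere hx'
        rw [br1G_eq hg hx]
        have hp := br1_sq_pos hx'
        refine mul_pos (inv_pos.2 hp) ?_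
        have ht : Tangent (br1n fun k => x k)
            ((fun k => v k) - (∑ k, (br1n fun k => x k) k * v k) • (br1n fun k => x k)) := by
          rw [← br1_pr (fun k => v k)]
          exact br1_tan_sum hsp _ _ _ (br1_tan_tang hsp)
        by_cases h0 : (fun k => v k) - (∑ k, (br1n fun k => x k) k * v k) •
            (br1n fun k => x k) = (0 : Fin 5 → ℝ)
        · have h1 : g (br1n fun k => x k)
              ((fun k => v k) - (∑ k, (br1n fun k => x k) k * v k) • (br1n fun k => x k))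
              ((fun k => v k) - (∑ k, (br1n fun k => x k) k * v k) • (br1n fun k => x k)) = 0 := by
            have h2 := hg.smul _ 0 _ _ ht ht
            rw [zero_smul, zero_mul] at h2
            rw [h0] at h2 ⊢
            exact h2
          rw [h1, zero_add]
          have h3 : ∑ k, (br1n fun k => x k) k * v k ≠ 0 := by
            intro h4
            rw [h4, zero_smul, sub_zero] at h0
            exact br1_ne hv h0
          exact mul_self_pos.2 h3
        · have h1 := hg.pos _ _ ht h0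
          have h2 := mul_self_nonneg (∑ k, (br1n fun k => x k) k * v k)
          linarith }
  homog := by
    intro c hc x hx
    ext v w
    rw [ContinuousLinearMap.smul_apply, ContinuousLinearMap.smul_apply, br1G_apply, br1G_apply,
      smul_eq_mul, Finset.mul_sum]
    refine Finset.sum_congr rfl fun i _ => ?_
    rw [Finset.mul_sum]
    refine Finset.sum_congr rfl fun j _ => ?_
    have h1 : (fun k => (c • x) k : Fin 5 → ℝ) = c • (fun k => x k : Fin 5 → ℝ) := rfl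
    rw [h1]
    unfold br1c
    rw [br1n_smul hc]
    have h2 : ∑ i, (c • (fun k => x k : Fin 5 → ℝ)) i ^ 2 = c ^ 2 * ∑ i, x i ^ 2 := by
      rw [Finset.mul_sum]
      refine Finset.sum_congr rfl fun i _ => ?_
      rw [Pi.smul_apply, smul_eq_mul, mul_pow]
    rw [h2, mul_inv]
    ring
  radial := by
    intro x hx w
    have hx' := br1_ne hx
    have hp := br1_sq_pos hx'
    have hr : 0 < Real.sqrt (∑ i, x i ^ 2) := Real.sqrt_pos.2 hp
    have hsq : Real.sqrt (∑ i, x i ^ 2) * Real.sqrt (∑ i, x i ^ 2) = ∑ i, x i ^ 2 :=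
      Real.mul_self_sqrt hp.le
    have hsp := br1n_sphere hx'
    have h1 : ∀ v : E5, ∑ k, (br1n fun k => x k) k * v k =
        (Real.sqrt (∑ i, x i ^ 2))⁻¹ * ∑ k, x k * v k := by
      intro v
      rw [Finset.mul_sum]
      refine Finset.sum_congr rfl fun k _ => ?_
      simp only [br1n, Pi.smul_apply, smul_eq_mul]
      ring
    have h2 : ∑ k, x k * x k = ∑ i, x i ^ 2 := Finset.sum_congr rfl fun k _ => by ring
    have h3 : ∑ k, (br1n fun k => x k) k * x k = Real.sqrt (∑ i, x i ^ 2) := by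
      rw [h1 x, h2]
      exact (inv_mul_eq_iff_eq_mul₀ hr.ne').2 hsq.symm
    have ht : Tangent (br1n fun k => x k)
        ((fun k => w k) - (∑ k, (br1n fun k => x k) k * w k) • (br1n fun k => x k)) := by
      rw [← br1_pr (fun k => w k)]
      exact br1_tan_sum hsp _ _ _ (br1_tan_tang hsp)
    have h4 : (fun k => x k) - (∑ k, (br1n fun k => x k) k * x k) • (br1n fun k => x k) =
        (0 : Fin 5 → ℝ) := by
      rw [h3]
      funext k
      simp only [br1n, Pi.sub_apply, Pi.smul_apply, smul_eq_mul, Pi.zero_apply]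
      field_simp
      ring
    have h5 : g (br1n fun k => x k) 0
        ((fun k => w k) - (∑ k, (br1n fun k => x k) k * w k) • (br1n fun k => x k)) = 0 := by
      have h6 := hg.smul _ 0 _ _ ht ht
      rw [zero_smul, zero_mul] at h6
      exact h6
    rw [br1G_eq hg hx, h4, h5, zero_add, h3, h1 w]
    have h7 : ⟪x, w⟫ = ∑ k, x k * w k := by
      rw [EuclideanSpace.inner_eq_star_dotProduct]
      simp [dotProduct, mul_comm]
    have h8 : ‖x‖ ^ 2 = ∑ i, x i ^ 2 := by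
      rw [EuclideanSpace.norm_sq_eq]
      simp
    rw [h7, h8]
    field_simp

theorem br1 : ParStatement → Br1Statement := by
  intro hPar g hg
  refine ⟨br1G g, br1_cyl hPar hg, ?_⟩
  intro x v w hv hw
  have hx : OnSphere x := hv.1
  have hx1 : ∑ i, x i ^ 2 = 1 := hx
  have hn : br1n x = x := by
    unfold br1n
    rw [hx1]
    simp
  have hx0 : x ≠ 0 := by
    rintro rfl
    simp at hx1
  have hvc0 : vc x ≠ 0 := by
    intro h
    apply hx0
    have h1 : (EuclideanSpace.equiv (Fin 5) ℝ) (vc x) = x :=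
      ContinuousLinearEquiv.apply_symm_apply _ _
    rw [← h1, h, map_zero]
  have hvc' : ∀ (u : Fin 5 → ℝ) (k : Fin 5), (vc u) k = u k := fun u k => rfl
  rw [br1G_eq hg hvc0]
  simp only [hvc', hn]
  rw [hv.2, hw.2, hx1]
  simp

end Cyl

end Pool.Agent.MVS.H94
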